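import Pool.Agent.W601.RP.Stm2

/-! Unit vectors on finite unions of chains. -/

set_option autoImplicit false
open scoped Classical
open Filter Topology

namespace Pool.Agent.W15.RP

open Pool.Agent.W601.RP

theorem nu_nonneg (t : ℕ) : 0 ≤ nu t := by
  unfold nu
  split_ifs
  · positivity
  · exact le_rfl

theorem N_pos (t : ℕ) : 0 < N t := by
  unfold N
  positivity

theorem tail_eq (A : Set ℕ) (hA : Summable (A.indicator nu)) (t : ℕ) :
    Summable ({u | u ∈ A ∧ t ≤ u}.indicator nu) ∧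
    ∑' u, {u | u ∈ A ∧ t ≤ u}.indicator nu u =
      (∑' u, A.indicator nu u) - ∑ i ∈ Finset.range t, A.indicator nu i := by
  have h1 : Summable ({u | u ∈ A ∧ t ≤ u}.indicator nu) := by
    refine Summable.of_nonneg_of_le (fun u => Set.indicator_nonneg (fun u _ => nu_nonneg u) u)
      (fun u => ?_) hA
    exact Set.indicator_le_indicator_of_subset (fun u hu => hu.1) (fun u => nu_nonneg u) u
  refine ⟨h1, ?_⟩
  have h2 := h1.sum_add_tsum_nat_add t
  have h3 := hA.sum_add_tsum_nat_add t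
  have h4 : ∑ i ∈ Finset.range t, {u | u ∈ A ∧ t ≤ u}.indicator nu i = 0 := by
    refine Finset.sum_eq_zero fun i hi => ?_
    rw [Finset.mem_range] at hi
    rw [Set.indicator_of_notMem]
    intro h
    have := h.2
    omega
  have h5 : ∀ i, {u | u ∈ A ∧ t ≤ u}.indicator nu (i + t) = A.indicator nu (i + t) := by
    intro i
    by_cases h : i + t ∈ A
    · rw [Set.indicator_of_mem h, Set.indicator_of_mem]
      exact ⟨h, by omega⟩
    · rw [Set.indicator_of_notMem h, Set.indicator_of_notMem]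
      exact fun h' => h h'.1
  rw [h4, zero_add] at h2
  rw [← h2, ← h3]
  simp only [h5]
  ring

theorem gam_zero (q : ℕ → ℕ) (t : ℕ) (h : q t < 2) : gam q t = 0 := by
  unfold gam
  have : q t / 2 = 0 := by omega
  rw [this]
  simp

theorem circ_mod (a n : ℕ) (hn : 0 < n) :
    (((((a % n : ℕ) : ℝ) / (n : ℝ)) : ℝ) : TT) = ((((a : ℝ) / (n : ℝ)) : ℝ) : TT) := by
  have hn' : (n : ℝ) ≠ 0 := by positivity
  have h1 : ((a : ℝ) / (n : ℝ)) = ((a % n : ℕ) : ℝ) / (n : ℝ) + (((a / n : ℕ) : ℤ) : ℝ) := by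
    have h2 : (a : ℝ) = ((a % n : ℕ) : ℝ) + (n : ℝ) * ((a / n : ℕ) : ℝ) := by
      rw [← Nat.cast_mul, ← Nat.cast_add, Nat.mod_add_div]
    rw [Int.cast_natCast, div_add' _ _ _ hn']
    congr 1
    rw [mul_comm ((a / n : ℕ) : ℝ) (n : ℝ)]
    exact h2
  rw [h1, AddCircle.coe_add]
  have h3 : (((((a / n : ℕ) : ℤ) : ℝ)) : TT) = 0 := by
    rw [AddCircle.coe_eq_zero_iff]
    exact ⟨((a / n : ℕ) : ℤ), by simp⟩
  rw [h3, add_zero]

theorem unit : S_AV → S_NUC → S_LOC → S_UNIT := by
  intro hAV hNUC hLOC A hA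
  have hs := hNUC A hA
  have htend := hs.hasSum.tendsto_sum_nat
  have hev : ∀ᶠ n in atTop, (∑' u, A.indicator nu u) - 1 <
      ∑ i ∈ Finset.range n, A.indicator nu i :=
    htend.eventually (lt_mem_nhds (by linarith))
  obtain ⟨t0, ht0⟩ := hev.exists
  refine ⟨t0, fun t htA ht a => ?_⟩
  obtain ⟨hW1, hW2⟩ := tail_eq A hs t
  have hW3 : ∑' u, {u | u ∈ A ∧ t ≤ u}.indicator nu u < 1 := by
    rw [hW2]
    have hmono : ∑ i ∈ Finset.range t0, A.indicator nu i ≤
        ∑ i ∈ Finset.range t, A.indicator nu i := by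
      refine Finset.sum_le_sum_of_subset_of_nonneg ?_ ?_
      · intro i hi
        rw [Finset.mem_range] at hi ⊢
        omega
      · intro i _ _
        exact Set.indicator_nonneg (fun u _ => nu_nonneg u) i
    linarith
  obtain ⟨ε, he1, he2⟩ := hAV _ hW1 hW3
  obtain ⟨q1, hq1⟩ : ∃ q : ℕ → ℕ, q = fun i => 2 * (if i = t then a % N t else 0) + ε i :=
    ⟨_, rfl⟩
  have hq1t : q1 t = 2 * (a % N t) + ε t := by rw [hq1]; simp
  have hq1n : ∀ i, i ≠ t → q1 i = ε i := by
    intro i hi
    rw [hq1]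
    simp [hi]
  have h1Q : q1 ∈ QQ := by
    refine ⟨fun i => ?_, fun B _ η hη => ?_⟩
    · unfold M
      have hp := N_pos i
      have := he1 i
      by_cases hi : i = t
      · subst hi
        rw [hq1t]
        have := Nat.mod_lt a hp
        omega
      · rw [hq1n i hi]
        omega
    · refine (Set.finite_singleton t).subset fun u hu => ?_
      by_contra hut
      have hut' : u ≠ t := hut
      have := hu.2
      rw [gam_zero q1 u (by rw [hq1n u hut']; exact he1 u), norm_zero] at this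
      linarith
  have h0Q : ε ∈ QQ := by
    refine ⟨fun i => ?_, fun B _ η hη => ?_⟩
    · unfold M
      have hp := N_pos i
      have := he1 i
      omega
    · refine Set.finite_empty.subset fun u hu => ?_
      have := hu.2
      rw [gam_zero ε u (he1 u), norm_zero] at this
      linarith
  have p1 : ∀ i, q1 i % 2 = ε i := by
    intro i
    have := he1 i
    by_cases hi : i = t
    · subst hi
      rw [hq1t]
      omega
    · rw [hq1n i hi]
      omega
  have p0 : ∀ i, ε i % 2 = ε i := by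
    intro i
    have := he1 i
    omega
  refine ⟨x q1 - x ε, H.sub_mem (AddSubgroup.subset_closure ⟨q1, h1Q, rfl⟩)
    (AddSubgroup.subset_closure ⟨ε, h0Q, rfl⟩), ?_, ?_⟩
  · rw [Pi.sub_apply, he2 t ⟨htA, le_rfl⟩ q1 p1, he2 t ⟨htA, le_rfl⟩ ε p0,
      gam_zero ε t (he1 t), sub_zero]
    have hg : gam q1 t = (((((a % N t : ℕ) : ℝ) / (N t : ℝ)) : ℝ) : TT) := by
      unfold gam
      have : q1 t / 2 = a % N t := by
        rw [hq1t]
        have := he1 t
        omega
      rw [this]
    rw [hg, circ_mod a (N t) (N_pos t)]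
  · intro u huA hut
    rw [Pi.sub_apply]
    rcases Nat.lt_or_ge u t with hlt | hge
    · rw [hLOC q1 ε u (fun i hi => hq1n i (by omega)), sub_self]
    · rw [he2 u ⟨huA, hge⟩ q1 p1, he2 u ⟨huA, hge⟩ ε p0, gam_zero ε u (he1 u),
        gam_zero q1 u (by rw [hq1n u hut]; exact he1 u), sub_zero]

end Pool.Agent.W15.RP
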